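import Pool.Agent.Lib.MP_6bc78b_nt.MS.P3.Iface

/-! MS Part III: continuity, bounds and dominated convergence for the averages over circles (`cav`,
`av3`) and the integral over the square (`sqI`). -/

set_option autoImplicit false

open Complex Filter Topology MeasureTheory Set

namespace Pool.Agent.Lib.MP_6bc78b_nt.MS.P3.H28

/-! ## Segments -/

/-- Clamping to an interval. -/
noncomputable def clp (a b t : ℝ) : ℝ := max a (min t b)

lemma clp_cont (a b : ℝ) : Continuous (clp a b) := by unfold clp; fun_prop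

lemma clp_mem {a b : ℝ} (hab : a ≤ b) (t : ℝ) : clp a b t ∈ Icc a b :=
  ⟨le_max_left _ _, max_le hab (min_le_right _ _)⟩

lemma clp_eq {a b t : ℝ} (ht : t ∈ Icc a b) : clp a b t = t := by
  rw [clp, min_eq_left ht.2, max_eq_right ht.1]

lemma seg_clp {a b : ℝ} (hab : a ≤ b) (f : ℝ → ℂ) :
    ∫ t in a..b, f t = ∫ t in a..b, f (clp a b t) := by
  refine intervalIntegral.integral_congr fun t ht => ?_
  rw [uIcc_of_le hab] at ht
  simp only [clp_eq ht]

section seg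

variable {X : Type*} [TopologicalSpace X] {S : Set X} {C : Set ℂ} {γ : ℝ → ℂ} {a b : ℝ}

lemma seg_continuousOn {g : X → ℂ → ℂ} (hg : ContinuousOn (fun p : X × ℂ => g p.1 p.2) (S ×ˢ C))
    (hγ : Continuous γ) (hab : a ≤ b) (hC : ∀ t ∈ Icc a b, γ t ∈ C) :
    ContinuousOn (fun x => ∫ t in a..b, g x (γ t)) S := by
  rw [continuousOn_iff_continuous_domRestrict]
  have h1 : S.domRestrict (fun x => ∫ t in a..b, g x (γ t)) =
      fun x : S => ∫ t in a..b, g x (γ (clp a b t)) := by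
    funext x
    exact seg_clp hab _
  rw [h1]
  refine intervalIntegral.continuous_parametric_intervalIntegral_of_continuous' ?_ a b
  have h2 : Continuous (fun p : S × ℝ => ((p.1 : X), γ (clp a b p.2))) := by
    have := clp_cont a b
    fun_prop
  exact hg.comp_continuous h2 fun p => ⟨p.1.2, hC _ (clp_mem hab _)⟩

lemma seg_bound {f : ℂ → ℂ} {M : ℝ} (hab : a ≤ b) (hC : ∀ t ∈ Icc a b, γ t ∈ C)
    (hM : ∀ z ∈ C, ‖f z‖ ≤ M) : ‖∫ t in a..b, f (γ t)‖ ≤ M * (b - a) := by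
  have h := intervalIntegral.norm_integral_le_of_norm_le_const (f := fun t => f (γ t)) (a := a)
    (b := b) (C := M) fun t ht => by
      rw [uIoc_of_le hab] at ht
      exact hM _ (hC t ⟨ht.1.le, ht.2⟩)
  rwa [abs_of_nonneg (by linarith)] at h

lemma seg_continuous {f : ℂ → ℂ} (hf : ContinuousOn f C) (hγ : Continuous γ) (hab : a ≤ b)
    (hC : ∀ t ∈ Icc a b, γ t ∈ C) : Continuous (fun t => f (γ (clp a b t))) :=
  hf.comp_continuous (hγ.comp (clp_cont a b)) fun t => hC _ (clp_mem hab t)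

lemma seg_intervalIntegrable {f : ℂ → ℂ} (hf : ContinuousOn f C) (hγ : Continuous γ) (hab : a ≤ b)
    (hC : ∀ t ∈ Icc a b, γ t ∈ C) : IntervalIntegrable (fun t => f (γ t)) volume a b := by
  refine ContinuousOn.intervalIntegrable ?_
  rw [uIcc_of_le hab]
  exact hf.comp hγ.continuousOn hC

lemma seg_tendsto {F : ℝ → ℂ → ℂ} {f : ℂ → ℂ} {M : ℝ} (hγ : Continuous γ) (hab : a ≤ b)
    (hC : ∀ t ∈ Icc a b, γ t ∈ C) (hF : ∀ᶠ T in atTop, ContinuousOn (F T) C)
    (hM : ∀ᶠ T in atTop, ∀ z ∈ C, ‖F T z‖ ≤ M)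
    (hl : ∀ z ∈ C, Tendsto (fun T => F T z) atTop (𝓝 (f z))) :
    Tendsto (fun T => ∫ t in a..b, F T (γ t)) atTop (𝓝 (∫ t in a..b, f (γ t))) := by
  refine intervalIntegral.tendsto_integral_filter_of_dominated_convergence (fun _ => M) ?_ ?_ ?_ ?_
  · filter_upwards [hF] with T hT
    have h1 := (seg_intervalIntegrable hT hγ hab hC).aestronglyMeasurable
    rwa [uIoc_of_le hab]
  · filter_upwards [hM] with T hT
    refine Eventually.of_forall fun t ht => ?_
    rw [uIoc_of_le hab] at ht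
    exact hT _ (hC t ⟨ht.1.le, ht.2⟩)
  · exact intervalIntegrable_const
  · refine Eventually.of_forall fun t ht => ?_
    rw [uIoc_of_le hab] at ht
    exact hl _ (hC t ⟨ht.1.le, ht.2⟩)

end seg

/-! ## The circle -/

/-- The circle `|A| = 1/4`. -/
def ci : Set ℂ := {z : ℂ | ‖z‖ = 1 / 4}

lemma ci_mem (t : ℝ) : (1 / 4 * Complex.exp (t * I) : ℂ) ∈ ci := by
  simp only [ci, mem_ofPred_eq, norm_mul, Complex.norm_exp_ofReal_mul_I, mul_one]
  norm_num

lemma ci_cont : Continuous (fun t : ℝ => (1 / 4 * Complex.exp (t * I) : ℂ)) := by fun_prop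

lemma pi2 : (0 : ℝ) ≤ 2 * Real.pi := by positivity

section cav

variable {X : Type*} [TopologicalSpace X] {S : Set X}

lemma cav_continuousOn {g : X → ℂ → ℂ}
    (hg : ContinuousOn (fun p : X × ℂ => g p.1 p.2) (S ×ˢ ci)) :
    ContinuousOn (fun x => cav (g x)) S :=
  continuousOn_const.mul (seg_continuousOn hg ci_cont pi2 fun t _ => ci_mem t)

lemma cav_bound {f : ℂ → ℂ} {M : ℝ} (hM : ∀ z ∈ ci, ‖f z‖ ≤ M) : ‖cav f‖ ≤ M := by
  have h := seg_bound (f := f) pi2 (fun t _ => ci_mem t) hM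
  rw [cav, norm_mul, norm_inv, Complex.norm_real, Real.norm_of_nonneg pi2]
  have hp : (0 : ℝ) < 2 * Real.pi := by positivity
  rw [sub_zero] at h
  calc (2 * Real.pi)⁻¹ * ‖∫ θ in (0 : ℝ)..(2 * Real.pi), f (1 / 4 * Complex.exp (θ * I))‖
      ≤ (2 * Real.pi)⁻¹ * (M * (2 * Real.pi)) := by gcongr
    _ = M := by field_simp

lemma cav_tendsto {F : ℝ → ℂ → ℂ} {f : ℂ → ℂ} {M : ℝ}
    (hF : ∀ᶠ T in atTop, ContinuousOn (F T) ci) (hM : ∀ᶠ T in atTop, ∀ z ∈ ci, ‖F T z‖ ≤ M)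
    (hl : ∀ z ∈ ci, Tendsto (fun T => F T z) atTop (𝓝 (f z))) :
    Tendsto (fun T => cav (F T)) atTop (𝓝 (cav f)) :=
  (seg_tendsto ci_cont pi2 (fun t _ => ci_mem t) hF hM hl).const_mul _

lemma cav_congr {f g : ℂ → ℂ} (h : ∀ z ∈ ci, f z = g z) : cav f = cav g := by
  unfold cav
  congr 1
  exact intervalIntegral.integral_congr fun t _ => h _ (ci_mem t)

lemma cav_const_mul (c : ℂ) (f : ℂ → ℂ) : cav (fun z => c * f z) = c * cav f := by
  unfold cav
  rw [intervalIntegral.integral_const_mul]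
  ring

lemma cav_mul_const (c : ℂ) (f : ℂ → ℂ) : cav (fun z => f z * c) = cav f * c := by
  unfold cav
  rw [intervalIntegral.integral_mul_const]
  ring

lemma cav_add {f g : ℂ → ℂ} (hf : ContinuousOn f ci) (hg : ContinuousOn g ci) :
    cav (fun z => f z + g z) = cav f + cav g := by
  unfold cav
  rw [intervalIntegral.integral_add (seg_intervalIntegrable hf ci_cont pi2 fun t _ => ci_mem t)
    (seg_intervalIntegrable hg ci_cont pi2 fun t _ => ci_mem t)]
  ring

lemma cav_sub {f g : ℂ → ℂ} (hf : ContinuousOn f ci) (hg : ContinuousOn g ci) :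
    cav (fun z => f z - g z) = cav f - cav g := by
  unfold cav
  rw [intervalIntegral.integral_sub (seg_intervalIntegrable hf ci_cont pi2 fun t _ => ci_mem t)
    (seg_intervalIntegrable hg ci_cont pi2 fun t _ => ci_mem t)]
  ring

lemma cav_finset_sum {ι : Type*} (s : Finset ι) {f : ι → ℂ → ℂ}
    (hf : ∀ i ∈ s, ContinuousOn (f i) ci) :
    cav (fun z => ∑ i ∈ s, f i z) = ∑ i ∈ s, cav (f i) := by
  unfold cav
  rw [intervalIntegral.integral_finsetSum fun i hi =>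
    seg_intervalIntegrable (hf i hi) ci_cont pi2 fun t _ => ci_mem t, Finset.mul_sum]

/-- Exchange of `cav` and an absolutely convergent sum. -/
lemma cav_hasSum {f : ℕ → ℂ → ℂ} {M : ℕ → ℝ} (hf : ∀ n, ContinuousOn (f n) ci)
    (hM : ∀ n, ∀ z ∈ ci, ‖f n z‖ ≤ M n) (hs : Summable M) :
    HasSum (fun n => cav (f n)) (cav fun z => ∑' n, f n z) := by
  unfold cav
  refine HasSum.mul_left _ ?_
  refine intervalIntegral.hasSum_integral_of_dominated_convergence (fun n _ => M n) ?_ ?_ ?_ ?_ ?_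
  · intro n
    have h1 := (seg_intervalIntegrable (hf n) ci_cont pi2
      fun t _ => ci_mem t).aestronglyMeasurable
    rwa [uIoc_of_le pi2]
  · intro n
    exact Eventually.of_forall fun t _ => hM n _ (ci_mem t)
  · exact Eventually.of_forall fun t _ => hs
  · exact intervalIntegrable_const
  · refine Eventually.of_forall fun t _ => ?_
    exact (Summable.of_norm_bounded hs fun n => hM n _ (ci_mem t)).hasSum

end cav

/-! ## The torus -/

/-- The torus `|A_i| = 1/4`. -/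
def to3 : Set (Fin 3 → ℂ) := {A | ∀ i, ‖A i‖ = 1 / 4}

lemma to3_sub_pd : to3 ⊆ pd := fun _ hA i => (hA i).le

lemma to3_mem {x y z : ℂ} (hx : x ∈ ci) (hy : y ∈ ci) (hz : z ∈ ci) : ![x, y, z] ∈ to3 := by
  intro i
  fin_cases i
  · exact hx
  · exact hy
  · exact hz

lemma vec3_cont : Continuous (fun p : (ℂ × ℂ) × ℂ => (![p.1.1, p.1.2, p.2] : Fin 3 → ℂ)) := by
  refine continuous_pi fun i => ?_
  fin_cases i
  · exact continuous_fst.comp continuous_fst
  · exact continuous_snd.comp continuous_fst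
  · exact continuous_snd

section av3

variable {X : Type*} [TopologicalSpace X] {S : Set X}

lemma av3_cont1 {g : X → (Fin 3 → ℂ) → ℂ}
    (hg : ContinuousOn (fun p : X × (Fin 3 → ℂ) => g p.1 p.2) (S ×ˢ to3)) :
    ContinuousOn (fun q : (X × ℂ) × ℂ => cav fun z => g q.1.1 ![q.1.2, q.2, z])
      ((S ×ˢ ci) ×ˢ ci) := by
  refine cav_continuousOn (g := fun q : (X × ℂ) × ℂ => fun z => g q.1.1 ![q.1.2, q.2, z]) ?_
  have h1 : Continuous (fun r : ((X × ℂ) × ℂ) × ℂ =>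
      (r.1.1.1, (![r.1.1.2, r.1.2, r.2] : Fin 3 → ℂ))) := by
    refine Continuous.prodMk (by fun_prop) ?_
    exact vec3_cont.comp (f := fun r : ((X × ℂ) × ℂ) × ℂ => ((r.1.1.2, r.1.2), r.2)) (by fun_prop)
  refine hg.comp h1.continuousOn fun r hr => ?_
  exact ⟨hr.1.1.1, to3_mem hr.1.1.2 hr.1.2 hr.2⟩

lemma av3_cont2 {g : X → (Fin 3 → ℂ) → ℂ}
    (hg : ContinuousOn (fun p : X × (Fin 3 → ℂ) => g p.1 p.2) (S ×ˢ to3)) :
    ContinuousOn (fun q : X × ℂ => cav fun y => cav fun z => g q.1 ![q.2, y, z]) (S ×ˢ ci) :=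
  cav_continuousOn (g := fun q : X × ℂ => fun y => cav fun z => g q.1 ![q.2, y, z]) (av3_cont1 hg)

lemma av3_continuousOn {g : X → (Fin 3 → ℂ) → ℂ}
    (hg : ContinuousOn (fun p : X × (Fin 3 → ℂ) => g p.1 p.2) (S ×ˢ to3)) :
    ContinuousOn (fun x => av3 (g x)) S :=
  cav_continuousOn (g := fun x => fun x1 => cav fun y => cav fun z => g x ![x1, y, z])
    (av3_cont2 hg)

lemma av3_bound {f : (Fin 3 → ℂ) → ℂ} {M : ℝ} (hM : ∀ A ∈ to3, ‖f A‖ ≤ M) : ‖av3 f‖ ≤ M :=
  cav_bound fun _ hx => cav_bound fun _ hy => cav_bound fun _ hz => hM _ (to3_mem hx hy hz)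

lemma av3_congr {f g : (Fin 3 → ℂ) → ℂ} (h : ∀ A ∈ to3, f A = g A) : av3 f = av3 g :=
  cav_congr fun _ hx => cav_congr fun _ hy => cav_congr fun _ hz => h _ (to3_mem hx hy hz)

lemma av3_const_mul (c : ℂ) (f : (Fin 3 → ℂ) → ℂ) : av3 (fun A => c * f A) = c * av3 f := by
  unfold av3
  simp only [cav_const_mul]

lemma vec3_cont_z (x y : ℂ) : Continuous (fun z : ℂ => (![x, y, z] : Fin 3 → ℂ)) :=
  vec3_cont.comp (f := fun z : ℂ => ((x, y), z)) (by fun_prop)

lemma av3_contz {f : (Fin 3 → ℂ) → ℂ} (hf : ContinuousOn f to3) {x y : ℂ} (hx : x ∈ ci)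
    (hy : y ∈ ci) : ContinuousOn (fun z => f ![x, y, z]) ci :=
  hf.comp (vec3_cont_z x y).continuousOn fun _ hz => to3_mem hx hy hz

lemma av3_conty {f : (Fin 3 → ℂ) → ℂ} (hf : ContinuousOn f to3) {x : ℂ} (hx : x ∈ ci) :
    ContinuousOn (fun y => cav fun z => f ![x, y, z]) ci := by
  refine cav_continuousOn (g := fun y => fun z => f ![x, y, z]) ?_
  refine hf.comp (vec3_cont.comp (f := fun p : ℂ × ℂ => ((x, p.1), p.2))
    (by fun_prop)).continuousOn fun p hp => to3_mem hx hp.1 hp.2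

lemma av3_contx {f : (Fin 3 → ℂ) → ℂ} (hf : ContinuousOn f to3) :
    ContinuousOn (fun x => cav fun y => cav fun z => f ![x, y, z]) ci := by
  have h1 : ContinuousOn (fun p : Unit × (Fin 3 → ℂ) => f p.2) (univ ×ˢ to3) :=
    hf.comp continuous_snd.continuousOn fun p hp => hp.2
  have h2 := av3_cont2 (S := (univ : Set Unit)) (g := fun _ => f) h1
  exact h2.comp (f := fun x : ℂ => ((), x)) (by fun_prop) fun x hx => ⟨mem_univ _, hx⟩

lemma av3_add {f g : (Fin 3 → ℂ) → ℂ} (hf : ContinuousOn f to3) (hg : ContinuousOn g to3) :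
    av3 (fun A => f A + g A) = av3 f + av3 g := by
  unfold av3
  rw [← cav_add (av3_contx hf) (av3_contx hg)]
  refine cav_congr fun x hx => ?_
  rw [← cav_add (av3_conty hf hx) (av3_conty hg hx)]
  refine cav_congr fun y hy => ?_
  rw [← cav_add (av3_contz hf hx hy) (av3_contz hg hx hy)]

lemma av3_finset_sum {ι : Type*} (s : Finset ι) {f : ι → (Fin 3 → ℂ) → ℂ}
    (hf : ∀ i ∈ s, ContinuousOn (f i) to3) :
    av3 (fun A => ∑ i ∈ s, f i A) = ∑ i ∈ s, av3 (f i) := by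
  unfold av3
  rw [← cav_finset_sum s fun i hi => av3_contx (hf i hi)]
  refine cav_congr fun x hx => ?_
  rw [← cav_finset_sum s fun i hi => av3_conty (hf i hi) hx]
  refine cav_congr fun y hy => ?_
  rw [← cav_finset_sum s fun i hi => av3_contz (hf i hi) hx hy]

lemma av3_hasSum {f : ℕ → (Fin 3 → ℂ) → ℂ} {M : ℕ → ℝ} (hf : ∀ n, ContinuousOn (f n) to3)
    (hM : ∀ n, ∀ A ∈ to3, ‖f n A‖ ≤ M n) (hs : Summable M) :
    HasSum (fun n => av3 (f n)) (av3 fun A => ∑' n, f n A) := by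
  have h1 := cav_hasSum (f := fun n x => cav fun y => cav fun z => f n ![x, y, z])
    (fun n => av3_contx (hf n))
    (fun n x hx => cav_bound fun y hy => cav_bound fun z hz => hM n _ (to3_mem hx hy hz)) hs
  unfold av3
  convert h1 using 1
  refine cav_congr fun x hx => ?_
  have h2 := cav_hasSum (f := fun n y => cav fun z => f n ![x, y, z])
    (fun n => av3_conty (hf n) hx)
    (fun n y hy => cav_bound fun z hz => hM n _ (to3_mem hx hy hz)) hs
  rw [h2.tsum_eq]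
  refine cav_congr fun y hy => ?_
  have h3 := cav_hasSum (f := fun n z => f n ![x, y, z])
    (fun n => av3_contz (hf n) hx hy) (fun n z hz => hM n _ (to3_mem hx hy hz)) hs
  rw [h3.tsum_eq]

lemma av3_tendsto {F : ℝ → (Fin 3 → ℂ) → ℂ} {f : (Fin 3 → ℂ) → ℂ} {M : ℝ}
    (hF : ∀ᶠ T in atTop, ContinuousOn (F T) to3) (hM : ∀ᶠ T in atTop, ∀ A ∈ to3, ‖F T A‖ ≤ M)
    (hl : ∀ A ∈ to3, Tendsto (fun T => F T A) atTop (𝓝 (f A))) :
    Tendsto (fun T => av3 (F T)) atTop (𝓝 (av3 f)) := by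
  refine cav_tendsto (M := M) ?_ ?_ fun x hx => ?_
  · filter_upwards [hF] with T hT using av3_contx hT
  · filter_upwards [hM] with T hT x hx using
      cav_bound fun y hy => cav_bound fun z hz => hT _ (to3_mem hx hy hz)
  refine cav_tendsto (M := M) ?_ ?_ fun y hy => ?_
  · filter_upwards [hF] with T hT using av3_conty hT hx
  · filter_upwards [hM] with T hT y hy using cav_bound fun z hz => hT _ (to3_mem hx hy hz)
  refine cav_tendsto (M := M) ?_ ?_ fun z hz => hl _ (to3_mem hx hy hz)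
  · filter_upwards [hF] with T hT using av3_contz hT hx hy
  · filter_upwards [hM] with T hT z hz using hT _ (to3_mem hx hy hz)

/-- A product of functions of one variable each. -/
lemma av3_prod (f0 f1 f2 : ℂ → ℂ) (c : ℂ) :
    av3 (fun A => f0 (A 0) * f1 (A 1) * f2 (A 2) * c) = cav f0 * cav f1 * cav f2 * c := by
  unfold av3
  have h1 : ∀ x y : ℂ, (cav fun z => f0 ((![x, y, z] : Fin 3 → ℂ) 0) *
      f1 ((![x, y, z] : Fin 3 → ℂ) 1) * f2 ((![x, y, z] : Fin 3 → ℂ) 2) * c) =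
      f0 x * f1 y * cav f2 * c := by
    intro x y
    have : (fun z => f0 ((![x, y, z] : Fin 3 → ℂ) 0) *
      f1 ((![x, y, z] : Fin 3 → ℂ) 1) * f2 ((![x, y, z] : Fin 3 → ℂ) 2) * c) =
      fun z => (f0 x * f1 y) * (f2 z * c) := by
      funext z
      simp only [Matrix.cons_val_zero, Matrix.cons_val_one, Matrix.cons_val]
      ring
    rw [this, cav_const_mul, cav_mul_const]
    ring
  simp only [h1]
  have h2 : ∀ x : ℂ, (cav fun y => f0 x * f1 y * cav f2 * c) = f0 x * cav f1 * cav f2 * c := by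
    intro x
    have : (fun y => f0 x * f1 y * cav f2 * c) = fun y => f0 x * (f1 y * (cav f2 * c)) := by
      funext y; ring
    rw [this, cav_const_mul, cav_mul_const]
    ring
  simp only [h2]
  have h3 : (fun x => f0 x * cav f1 * cav f2 * c) = fun x => f0 x * (cav f1 * cav f2 * c) := by
    funext x; ring
  rw [h3, cav_mul_const]
  ring

end av3

/-! ## The square -/

lemma half_le : (-(1 / 2) : ℝ) ≤ 1 / 2 := by norm_num

lemma sq1 (t : ℝ) (ht : t ∈ Icc (-(1 / 2) : ℝ) (1 / 2)) : ((t : ℂ) - I / 2) ∈ sqB := by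
  have h : |t| ≤ 1 / 2 := abs_le.2 ⟨by linarith [ht.1], ht.2⟩
  refine ⟨by simpa using h, by simp [abs_of_pos], Or.inr (by simp [abs_of_pos])⟩

lemma sq2 (t : ℝ) (ht : t ∈ Icc (-(1 / 2) : ℝ) (1 / 2)) : ((t : ℂ) + I / 2) ∈ sqB := by
  have h : |t| ≤ 1 / 2 := abs_le.2 ⟨by linarith [ht.1], ht.2⟩
  refine ⟨by simpa using h, by simp [abs_of_pos], Or.inr (by simp [abs_of_pos])⟩

lemma sq3 (t : ℝ) (ht : t ∈ Icc (-(1 / 2) : ℝ) (1 / 2)) : ((1 / 2 : ℂ) + t * I) ∈ sqB := by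
  have h : |t| ≤ 1 / 2 := abs_le.2 ⟨by linarith [ht.1], ht.2⟩
  refine ⟨by simp [abs_of_pos], by simpa using h, Or.inl (by simp [abs_of_pos])⟩

lemma sq4 (t : ℝ) (ht : t ∈ Icc (-(1 / 2) : ℝ) (1 / 2)) : (-(1 / 2 : ℂ) + t * I) ∈ sqB := by
  have h : |t| ≤ 1 / 2 := abs_le.2 ⟨by linarith [ht.1], ht.2⟩
  refine ⟨by simp [abs_of_pos], by simpa using h, Or.inl (by simp [abs_of_pos])⟩

section sqI

variable {X : Type*} [TopologicalSpace X] {S : Set X}

lemma sqI_continuousOn {g : X → ℂ → ℂ}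
    (hg : ContinuousOn (fun p : X × ℂ => g p.1 p.2) (S ×ˢ sqB)) :
    ContinuousOn (fun x => sqI (g x)) S := by
  unfold sqI
  refine ((ContinuousOn.sub ?_ ?_).add (continuousOn_const.mul ?_)).sub
    (continuousOn_const.mul ?_)
  · exact seg_continuousOn hg (by fun_prop) half_le sq1
  · exact seg_continuousOn hg (by fun_prop) half_le sq2
  · exact seg_continuousOn hg (by fun_prop) half_le sq3
  · exact seg_continuousOn hg (by fun_prop) half_le sq4

lemma sqI_bound {f : ℂ → ℂ} {M : ℝ} (hM : ∀ z ∈ sqB, ‖f z‖ ≤ M) : ‖sqI f‖ ≤ 4 * M := by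
  have h1 := seg_bound (f := f) half_le sq1 hM
  have h2 := seg_bound (f := f) half_le sq2 hM
  have h3 := seg_bound (f := f) half_le sq3 hM
  have h4 := seg_bound (f := f) half_le sq4 hM
  unfold sqI
  refine (norm_sub_le _ _).trans ?_
  have h5 := norm_add_le ((∫ x in (-(1 / 2) : ℝ)..(1 / 2), f (x - I / 2)) -
    (∫ x in (-(1 / 2) : ℝ)..(1 / 2), f (x + I / 2)))
    (I * (∫ y in (-(1 / 2) : ℝ)..(1 / 2), f (1 / 2 + y * I)))
  have h6 := norm_sub_le (∫ x in (-(1 / 2) : ℝ)..(1 / 2), f (x - I / 2))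
    (∫ x in (-(1 / 2) : ℝ)..(1 / 2), f (x + I / 2))
  rw [norm_mul, Complex.norm_I, one_mul] at h5
  rw [norm_mul, Complex.norm_I, one_mul]
  linarith

lemma sqI_tendsto {F : ℝ → ℂ → ℂ} {f : ℂ → ℂ} {M : ℝ}
    (hF : ∀ᶠ T in atTop, ContinuousOn (F T) sqB) (hM : ∀ᶠ T in atTop, ∀ z ∈ sqB, ‖F T z‖ ≤ M)
    (hl : ∀ z ∈ sqB, Tendsto (fun T => F T z) atTop (𝓝 (f z))) :
    Tendsto (fun T => sqI (F T)) atTop (𝓝 (sqI f)) := by
  unfold sqI
  refine ((Tendsto.sub ?_ ?_).add (Tendsto.const_mul _ ?_)).sub (Tendsto.const_mul _ ?_)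
  · exact seg_tendsto (by fun_prop) half_le sq1 hF hM hl
  · exact seg_tendsto (by fun_prop) half_le sq2 hF hM hl
  · exact seg_tendsto (by fun_prop) half_le sq3 hF hM hl
  · exact seg_tendsto (by fun_prop) half_le sq4 hF hM hl

end sqI

/-- Points of the torus are not zero. -/
lemma wA_contOn (e : Fin 3 → ℕ) : ContinuousOn (wA e) to3 := by
  unfold wA
  refine continuousOn_finsetProd _ fun i _ => ?_
  refine ContinuousOn.inv₀ (by fun_prop) fun A hA => pow_ne_zero _ fun h => ?_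
  have := hA i
  rw [h] at this
  norm_num at this

lemma wA_norm (e : Fin 3 → ℕ) {A : Fin 3 → ℂ} (hA : A ∈ to3) : ‖wA e A‖ = 4 ^ (∑ i, e i) := by
  unfold wA
  rw [norm_prod]
  have : ∀ i, ‖((A i) ^ (e i))⁻¹‖ = 4 ^ (e i) := by
    intro i
    rw [norm_inv, norm_pow, hA i, one_div, inv_pow, inv_inv]
  simp only [this, Finset.prod_pow_eq_pow_sum]

end Pool.Agent.Lib.MP_6bc78b_nt.MS.P3.H28
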