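import Mathlib

/-! MS Part III, (P1): the Perron type formula
`(1/2π) ∫ e^(x(c+iy)) k!/(c+iy)^(k+1) dy = (max x 0)^k`, `k ≥ 1`, `c > 0`. -/

set_option autoImplicit false

open Complex MeasureTheory Set Filter Topology

namespace Pool.Agent.Lib.MP_6bc78b_nt.MS.P3.H28

lemma per_integrableOn (k : ℕ) {r : ℂ} (hr : 0 < r.re) :
    IntegrableOn (fun u : ℝ => (u : ℂ) ^ k * Complex.exp (-(r * u))) (Ioi 0) := by
  have h1 : IntegrableOn (fun x : ℝ => x ^ (k : ℝ) * Real.exp (-r.re * x ^ (1 : ℝ))) (Ioi 0) :=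
    integrableOn_rpow_mul_exp_neg_mul_rpow (by have : (0:ℝ) ≤ k := Nat.cast_nonneg k; linarith)
      one_pos hr
  refine (integrable_norm_iff ?_).1 ?_
  · exact (Continuous.aestronglyMeasurable (by fun_prop))
  · refine h1.congr_fun (fun x hx => ?_) measurableSet_Ioi
    simp only [norm_mul, norm_pow, Complex.norm_real, Real.norm_eq_abs, abs_of_pos (mem_Ioi.1 hx),
      Complex.norm_exp, Real.rpow_natCast, Real.rpow_one]
    congr 2
    simp

lemma per_laplace (k : ℕ) {r : ℂ} (hr : 0 < r.re) :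
    ∫ u in Ioi (0 : ℝ), (u : ℂ) ^ k * Complex.exp (-(r * u)) = k.factorial / r ^ (k + 1) := by
  have hr0 : r ≠ 0 := fun h => by rw [h] at hr; simp at hr
  have hlim : ∀ k : ℕ, Tendsto (fun u : ℝ => (u : ℂ) ^ k * Complex.exp (-(r * u)))
      atTop (𝓝 0) := by
    intro k
    rw [tendsto_zero_iff_norm_tendsto_zero]
    have h2 := tendsto_rpow_mul_exp_neg_mul_atTop_nhds_zero (k : ℝ) r.re hr
    refine h2.congr' ?_
    filter_upwards [eventually_gt_atTop 0] with x hx
    simp only [norm_mul, norm_pow, Complex.norm_real, Real.norm_eq_abs, abs_of_pos hx,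
      Complex.norm_exp, Real.rpow_natCast]
    congr 2
    simp
  induction k with
  | zero =>
    have hd : ∀ x ∈ Ici (0:ℝ), HasDerivAt (fun u : ℝ => -(Complex.exp (-(r * u)) / r))
        ((x : ℂ) ^ 0 * Complex.exp (-(r * x))) x := by
      intro x _
      have h1 : HasDerivAt (fun u : ℝ => -(r * (u : ℂ))) (-(r * 1)) x :=
        ((Complex.ofRealCLM.hasDerivAt (x := x)).const_mul r).neg
      have h2 := (h1.cexp.div_const r).neg
      convert! h2 using 1
      rw [pow_zero, one_mul]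
      field_simp
    have h3 := integral_Ioi_of_hasDerivAt_of_tendsto' hd (per_integrableOn 0 hr)
      (m := 0) (by
        have := ((hlim 0).div_const r).neg
        simpa using this)
    rw [h3]
    simp
  | succ k ih =>
    have hd : ∀ x ∈ Ici (0:ℝ), HasDerivAt (fun u : ℝ => -((u : ℂ) ^ (k + 1) *
        Complex.exp (-(r * u)) / r))
        ((x : ℂ) ^ (k + 1) * Complex.exp (-(r * x)) -
          ((k + 1 : ℕ) / r) * ((x : ℂ) ^ k * Complex.exp (-(r * x)))) x := by
      intro x _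
      have h1 : HasDerivAt (fun u : ℝ => -(r * (u : ℂ))) (-(r * 1)) x :=
        ((Complex.ofRealCLM.hasDerivAt (x := x)).const_mul r).neg
      have h0 : HasDerivAt (fun u : ℝ => (u : ℂ) ^ (k + 1)) (((k + 1 : ℕ) : ℂ) * (x : ℂ) ^ k * 1) x := by
        have := (hasDerivAt_pow (k + 1) (x : ℂ)).comp_ofReal
        rw [mul_one]
        exact this
      have h2 := ((h0.mul h1.cexp).div_const r).neg
      convert! h2 using 1
      field_simp
      ring
    have hi := (per_integrableOn (k + 1) hr).sub ((per_integrableOn k hr).const_mul ((k + 1 : ℕ) / r))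
    have h3 := integral_Ioi_of_hasDerivAt_of_tendsto' hd hi
      (m := 0) (by
        have := ((hlim (k + 1)).div_const r).neg
        simpa using this)
    rw [integral_sub (per_integrableOn (k + 1) hr) ((per_integrableOn k hr).const_mul _),
      integral_const_mul, ih] at h3
    rw [sub_eq_iff_eq_add] at h3
    rw [h3, Nat.factorial_succ]
    push_cast
    rw [pow_succ 0 k]
    field_simp
    ring

/-- The function whose Fourier transform is the Perron kernel. -/
noncomputable def pf (k : ℕ) (c : ℝ) (u : ℝ) : ℂ := ((max u 0 : ℝ) : ℂ) ^ k * Complex.exp (-(c * u))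

lemma pf_continuous (k : ℕ) (c : ℝ) : Continuous (pf k c) := by
  unfold pf
  fun_prop

lemma pf_integrable {k : ℕ} (hk : k ≠ 0) {c : ℝ} (hc : 0 < c) : Integrable (pf k c) := by
  have h1 : IntegrableOn (pf k c) (Ioi 0) := by
    refine (per_integrableOn k (r := (c : ℂ)) (by simpa using hc)).congr_fun (fun x hx => ?_)
      measurableSet_Ioi
    simp only [pf, max_eq_left (mem_Ioi.1 hx).le]
  have h2 : IntegrableOn (pf k c) (Iic 0) := by
    have h0 : IntegrableOn (fun _ : ℝ => (0 : ℂ)) (Iic 0) := integrableOn_zero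
    refine h0.congr_fun (fun x hx => ?_) measurableSet_Iic
    simp [pf, max_eq_right (mem_Iic.1 hx), hk]
  have h3 := h2.union h1
  rwa [Iic_union_Ioi, integrableOn_univ] at h3

open FourierTransform in
lemma pf_fourier {k : ℕ} (hk : k ≠ 0) {c : ℝ} (hc : 0 < c) (ξ : ℝ) :
    𝓕 (pf k c) ξ = k.factorial / (c + (2 * Real.pi * ξ : ℝ) * I) ^ (k + 1) := by
  rw [Real.fourier_real_eq_integral_exp_smul]
  have hr : 0 < (c + (2 * Real.pi * ξ : ℝ) * I : ℂ).re := by simpa using hc
  rw [← per_laplace k hr, ← integral_indicator measurableSet_Ioi]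
  congr 1
  funext u
  by_cases hu : 0 < u
  · rw [indicator_of_mem (mem_Ioi.2 hu), pf, max_eq_left hu.le, smul_eq_mul, mul_left_comm,
      ← Complex.exp_add]
    congr 2
    push_cast
    ring
  · rw [indicator_of_notMem (by simpa using hu), pf, max_eq_right (not_lt.1 hu)]
    simp [hk]

/-- The kernel is bounded by `C / (1 + y^2)`, hence integrable. -/
lemma per_norm {k : ℕ} (hk : k ≠ 0) {c : ℝ} (hc : 0 < c) :
    ∃ C : ℝ, 0 ≤ C ∧ ∀ y : ℝ, ‖(k.factorial : ℂ) / (c + y * I) ^ (k + 1)‖ ≤ C * (1 + y ^ 2)⁻¹ := by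
  obtain ⟨m, hm0, hmc, hm1⟩ : ∃ m : ℝ, 0 < m ∧ m ≤ c ∧ m ≤ 1 := ⟨min c 1, by positivity,
    min_le_left _ _, min_le_right _ _⟩
  refine ⟨k.factorial * (c ^ (k - 1))⁻¹ * (m ^ 2)⁻¹, by positivity, fun y => ?_⟩
  have hn : ‖(c + y * I : ℂ)‖ ^ 2 = c ^ 2 + y ^ 2 := by
    rw [← Complex.normSq_eq_norm_sq, Complex.normSq_add_mul_I]
  have hc1 : c ≤ ‖(c + y * I : ℂ)‖ := by
    have h1 := Complex.re_le_norm (c + y * I : ℂ)
    simpa using h1
  have h2 : m ^ 2 * (1 + y ^ 2) ≤ ‖(c + y * I : ℂ)‖ ^ 2 := by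
    rw [hn]
    nlinarith [sq_nonneg y, mul_le_mul hmc hmc hm0.le hc.le, mul_le_mul hm1 hm1 hm0.le zero_le_one]
  obtain ⟨l, rfl⟩ : ∃ l, k = l + 1 := ⟨k - 1, by omega⟩
  rw [norm_div, norm_pow, Complex.norm_natCast, Nat.add_sub_cancel]
  have h3 : c ^ l * (m ^ 2 * (1 + y ^ 2)) ≤ ‖(c + y * I : ℂ)‖ ^ (l + 1 + 1) := by
    have : ‖(c + y * I : ℂ)‖ ^ (l + 1 + 1) = ‖(c + y * I : ℂ)‖ ^ l * ‖(c + y * I : ℂ)‖ ^ 2 := by ring
    rw [this]
    gcongr
  calc ((l + 1).factorial : ℝ) / ‖(c + y * I : ℂ)‖ ^ (l + 1 + 1)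
      ≤ (l + 1).factorial / (c ^ l * (m ^ 2 * (1 + y ^ 2))) := by gcongr
    _ = (l + 1).factorial * (c ^ l)⁻¹ * (m ^ 2)⁻¹ * (1 + y ^ 2)⁻¹ := by
      field_simp

lemma cline_ne {c : ℝ} (hc : 0 < c) (y : ℝ) : (c + y * I : ℂ) ≠ 0 := fun h => by
  have h1 := congrArg Complex.re h
  simp at h1
  exact hc.ne' h1

lemma per_cont (k : ℕ) {c : ℝ} (hc : 0 < c) :
    Continuous (fun y : ℝ => (k.factorial : ℂ) / (c + y * I) ^ (k + 1)) := by
  refine Continuous.div (by fun_prop) (by fun_prop) fun y => pow_ne_zero _ (cline_ne hc y)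

lemma per_int {k : ℕ} (hk : k ≠ 0) {c : ℝ} (hc : 0 < c) :
    Integrable (fun y : ℝ => (k.factorial : ℂ) / (c + y * I) ^ (k + 1)) := by
  obtain ⟨C, -, hC⟩ := per_norm hk hc
  exact (integrable_inv_one_add_sq.const_mul C).mono' (per_cont k hc).aestronglyMeasurable
    (Eventually.of_forall hC)

/-- The integrand of Perron's formula. -/
lemma per_int' {k : ℕ} (hk : k ≠ 0) {c : ℝ} (hc : 0 < c) (x : ℝ) :
    Integrable (fun y : ℝ => Complex.exp (x * (c + y * I)) *
      ((k.factorial : ℂ) / (c + y * I) ^ (k + 1))) := by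
  have h1 := (per_int hk hc).norm.const_mul (Real.exp (x * c))
  refine h1.mono' ?_ (Eventually.of_forall fun y => ?_)
  · exact ((by fun_prop : Continuous fun y : ℝ => Complex.exp (x * (c + y * I))).mul
      (per_cont k hc)).aestronglyMeasurable
  · rw [norm_mul, Complex.norm_exp]
    simp

open FourierTransform in
/-- (P1) Perron's formula. -/
theorem perron {k : ℕ} (hk : k ≠ 0) {c : ℝ} (hc : 0 < c) (x : ℝ) :
    ∫ y : ℝ, Complex.exp (x * (c + y * I)) * ((k.factorial : ℂ) / (c + y * I) ^ (k + 1)) =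
      2 * Real.pi * ((max x 0 : ℝ) : ℂ) ^ k := by
  have hF : 𝓕 (pf k c) = fun ξ : ℝ => (k.factorial : ℂ) / (c + (2 * Real.pi * ξ : ℝ) * I) ^ (k + 1) :=
    funext fun ξ => pf_fourier hk hc ξ
  have h2π : (2 * Real.pi) ≠ 0 := by positivity
  have hFi : Integrable (𝓕 (pf k c)) := by
    rw [hF]
    exact (per_int hk hc).comp_mul_left' h2π
  have h1 := congrFun ((pf_continuous k c).fourierInv_fourier_eq (pf_integrable hk hc) hFi) x
  rw [Real.fourierInv_eq', hF] at h1
  have h2 : (fun v : ℝ => Complex.exp (((2 * Real.pi * inner ℝ v x : ℝ) : ℂ) * I) •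
      ((k.factorial : ℂ) / (c + (2 * Real.pi * v : ℝ) * I) ^ (k + 1))) =
      fun v : ℝ => (fun y : ℝ => Complex.exp (x * y * I) *
        ((k.factorial : ℂ) / (c + y * I) ^ (k + 1))) (2 * Real.pi * v) := by
    funext v
    simp only [smul_eq_mul]
    congr 2
    simp only [RCLike.inner_apply, conj_trivial]
    push_cast
    ring
  rw [h2] at h1
  have h6 := Measure.integral_comp_mul_left (fun y : ℝ => Complex.exp (x * y * I) *
        ((k.factorial : ℂ) / (c + y * I) ^ (k + 1))) (2 * Real.pi)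
  replace h1 := h6.symm.trans h1
  rw [abs_of_pos (by positivity : 0 < (2 * Real.pi)⁻¹)] at h1
  have h3 : ∫ y : ℝ, Complex.exp (x * (c + y * I)) * ((k.factorial : ℂ) / (c + y * I) ^ (k + 1)) =
      Complex.exp (x * c) * ∫ y : ℝ, Complex.exp (x * y * I) *
        ((k.factorial : ℂ) / (c + y * I) ^ (k + 1)) := by
    rw [← integral_const_mul]
    congr 1
    funext y
    rw [← mul_assoc, ← Complex.exp_add]
    congr 2
    ring
  have h4 : ∫ y : ℝ, Complex.exp (x * y * I) *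
        ((k.factorial : ℂ) / (c + y * I) ^ (k + 1)) = (2 * Real.pi) * pf k c x := by
    rw [← h1, Complex.real_smul, ← mul_assoc]
    have h8 : (2 * Real.pi : ℂ) * (((2 * Real.pi)⁻¹ : ℝ) : ℂ) = 1 := by
      rw [← Complex.ofReal_ofNat, ← Complex.ofReal_mul, ← Complex.ofReal_mul,
        mul_inv_cancel₀ h2π, Complex.ofReal_one]
    rw [h8, one_mul]
  rw [h3, h4, pf]
  have h5 : Complex.exp (x * c) * Complex.exp (-(c * x)) = 1 := by
    rw [← Complex.exp_add]
    simp [mul_comm]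
  calc Complex.exp (x * c) * (2 * Real.pi * (((max x 0 : ℝ) : ℂ) ^ k * Complex.exp (-(c * x))))
      = (Complex.exp (x * c) * Complex.exp (-(c * x))) * (2 * Real.pi * ((max x 0 : ℝ) : ℂ) ^ k) := by
        ring
    _ = _ := by rw [h5, one_mul]

end Pool.Agent.Lib.MP_6bc78b_nt.MS.P3.H28
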